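import Pool.Agent.ZP3.Stmts

/-!
Squad ZP3, row URA: algebraic numbers are unramified for large primes.
-/

set_option autoImplicit false

namespace Pool.Agent.ZP3.H56

open Polynomial Pool.Agent.ZPT Pool.Agent.ZP3

noncomputable section

/-- integers have norm at most one -/
theorem norm_int_le {p : ℕ} (hp : p.Prime) {K : Type} [NormedField K] [CharZero K]
    (hE : Ext p K) (z : ℤ) : ‖(z : K)‖ ≤ 1 := by
  have := Fact.mk hp
  have h := hE (z : ℚ)
  rw [Rat.cast_intCast] at h
  rw [h]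
  exact_mod_cast padicNorm.of_int z

theorem norm_p {p : ℕ} (hp : p.Prime) {K : Type} [NormedField K] [CharZero K]
    (hE : Ext p K) : ‖(p : K)‖ = (p : ℝ)⁻¹ := by
  have := Fact.mk hp
  have h := hE (p : ℚ)
  rw [Rat.cast_natCast] at h
  rw [h, padicNorm.padicNorm_p_of_prime]
  push_cast
  rfl

/-- evaluation of an integer polynomial at an element of norm at most one -/
theorem norm_aeval_le {p : ℕ} (hp : p.Prime) {K : Type} [NormedField K] [CharZero K]
    [IsUltrametricDist K] (hE : Ext p K) (f : ℤ[X]) (x : K) (hx : ‖x‖ ≤ 1) :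
    ‖aeval x f‖ ≤ 1 := by
  rw [aeval_eq_sum_range]
  refine IsUltrametricDist.norm_sum_le_of_forall_le_of_nonneg zero_le_one fun i _ => ?_
  rw [zsmul_eq_mul, norm_mul, norm_pow]
  have h1 := norm_int_le hp hE (f.coeff i)
  have h2 : ‖x‖ ^ i ≤ 1 := pow_le_one₀ (norm_nonneg x) hx
  nlinarith [norm_nonneg ((f.coeff i : ℤ) : K), pow_nonneg (norm_nonneg x) i]

/-- clearing denominators -/
theorem clear (q : ℚ[X]) : ∃ (b : ℤ) (q' : ℤ[X]), b ≠ 0 ∧
    q'.map (Int.castRingHom ℚ) = C (b : ℚ) * q := by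
  obtain ⟨b, hb⟩ := IsLocalization.integerNormalization_map_to_map (nonZeroDivisors ℤ) q
  refine ⟨b, IsLocalization.integerNormalization (nonZeroDivisors ℤ) q,
    nonZeroDivisors.coe_ne_zero b, ?_⟩
  have h : (algebraMap ℤ ℚ) = Int.castRingHom ℚ := rfl
  rw [← h, hb]
  ext n
  simp [zsmul_eq_mul]

/-- an integer polynomial with root `g` that is separable modulo almost all primes -/
theorem sepPoly (g : Qb) : ∃ (f u v : ℤ[X]) (c : ℤ), c ≠ 0 ∧ aeval g f = 0 ∧
    u * f + v * derivative f = C c := by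
  have halg : IsAlgebraic ℚ g := (algebraicClosure.isAlgebraic ℚ ℂ).isAlgebraic g
  have hint : IsIntegral ℚ g := halg.isIntegral
  obtain ⟨b, f, hb, hf⟩ := clear (minpoly ℚ g)
  have hsep : (minpoly ℚ g).Separable := (minpoly.irreducible hint).separable
  obtain ⟨u0, v0, huv⟩ := hsep
  obtain ⟨bu, u, hbu, hu⟩ := clear u0
  obtain ⟨bv, v, hbv, hv⟩ := clear v0
  refine ⟨f, C bv * u, C bu * v, bu * bv * b, by positivity, ?_, ?_⟩
  · have h1 : aeval g (f.map (Int.castRingHom ℚ)) = 0 := by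
      rw [hf, map_mul, minpoly.aeval, mul_zero]
    have h2 : aeval g (f.map (algebraMap ℤ ℚ)) = aeval g f := aeval_map_algebraMap ℚ g f
    rw [← h2]; exact h1
  · apply map_injective (Int.castRingHom ℚ) Int.cast_injective
    have hder : (derivative f).map (Int.castRingHom ℚ) = C (b : ℚ) * derivative (minpoly ℚ g) := by
      rw [← derivative_map, hf, derivative_C_mul]
    rw [Polynomial.map_add, Polynomial.map_mul, Polynomial.map_mul, Polynomial.map_mul,
      Polynomial.map_mul, map_C, map_C, map_C, hu, hv, hf, hder]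
    have : (Int.castRingHom ℚ) (bu * bv * b) = (bu : ℚ) * bv * b := by simp
    rw [this]
    simp only [eq_intCast, C_mul]
    linear_combination (C (bu : ℚ) * C (bv : ℚ) * C (b : ℚ)) * huv

/-- in a finite reduced ring of characteristic `p` some iterate of the Frobenius is the identity -/
theorem frobId {p : ℕ} (hp : p.Prime) (R : Type) [CommRing R] [CharP R p] [Finite R] [IsReduced R] :
    ∃ F : ℕ, 1 ≤ F ∧ ∀ x : R, x ^ (p ^ F) = x := by
  have := Fact.mk hp
  have hinj : Function.Injective (frobenius R p) := frobenius_inj R p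
  have hbij : Function.Bijective (frobenius R p) := Finite.injective_iff_bijective.mp hinj
  set σ : Equiv.Perm R := Equiv.ofBijective _ hbij with hσ
  have hfin : IsOfFinOrder σ := isOfFinOrder_of_finite σ
  obtain ⟨F, hF, h⟩ := isOfFinOrder_iff_pow_eq_one.mp hfin
  refine ⟨F, hF, fun x => ?_⟩
  have h1 : (σ ^ F) x = x := by rw [h]; rfl
  have h2 : (σ ^ F) x = (frobenius R p)^[F] x := by
    rw [← Equiv.Perm.iterate_eq_pow]
    rfl
  rw [h2, iterate_frobenius] at h1
  exact h1

theorem dvdFrob {p : ℕ} (hp : p.Prime) (f : (ZMod p)[X]) (hf : f.Separable) :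
    ∃ F : ℕ, 1 ≤ F ∧ f ∣ X ^ (p ^ F) - X := by
  have := Fact.mk hp
  by_cases hu : IsUnit f
  · exact ⟨1, le_refl _, hu.dvd⟩
  have hf0 : f ≠ 0 := hf.ne_zero
  have hfin : Finite (AdjoinRoot f) := by
    have := (AdjoinRoot.powerBasis hf0).finite
    exact Module.finite_of_finite (ZMod p)
  have hnt : Nontrivial (AdjoinRoot f) := by
    refine AdjoinRoot.nontrivial f ?_
    intro h
    exact hu (isUnit_iff_degree_eq_zero.mpr h)
  have hch : CharP (AdjoinRoot f) p :=
    charP_of_injective_algebraMap (algebraMap (ZMod p) (AdjoinRoot f)).injective p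
  have hred : IsReduced (AdjoinRoot f) := by
    have h1 : (Ideal.span {f}).IsRadical := by
      rw [← isRadical_iff_span_singleton]
      exact hf.squarefree.isRadical
    exact (Ideal.isRadical_iff_quotient_reduced _).mp h1
  obtain ⟨F, hF, h⟩ := frobId hp (AdjoinRoot f)
  refine ⟨F, hF, ?_⟩
  rw [← AdjoinRoot.mk_eq_zero, map_sub, map_pow, AdjoinRoot.mk_X, h, sub_self]

theorem ura (GR : GRStmt) : URAStmt := by
  classical
  intro S
  -- good reduction for all elements and inverses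
  obtain ⟨p₁, hp₁⟩ := GR ((S.image fun g : Qb => (g : ℂ)) ∪ (S.image fun g : Qb => ((g⁻¹ : Qb) : ℂ)))
    (by
      intro g hg
      rw [Finset.mem_union, Finset.mem_image, Finset.mem_image] at hg
      rcases hg with ⟨a, _, rfl⟩ | ⟨a, _, rfl⟩
      · have h1 : IsAlgebraic ℚ a := (algebraicClosure.isAlgebraic ℚ ℂ).isAlgebraic a
        exact h1.algebraMap
      · have h1 : IsAlgebraic ℚ a⁻¹ := (algebraicClosure.isAlgebraic ℚ ℂ).isAlgebraic a⁻¹
        exact h1.algebraMap)
  choose f u v c hc0 hfg huv using sepPoly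
  refine ⟨p₁ + (∑ g ∈ S, (c g).natAbs) + 1, ?_⟩
  intro p hp hpp K _ _ _ hE ι g hg
  have := Fact.mk hp
  have hle : ‖ι g‖ ≤ 1 := hp₁ p hp (by omega) K hE ι g (by
    rw [Finset.mem_union]; exact Or.inl (Finset.mem_image_of_mem _ hg))
  have hle' : ‖ι g⁻¹‖ ≤ 1 := hp₁ p hp (by omega) K hE ι g⁻¹ (by
    rw [Finset.mem_union]; exact Or.inr (Finset.mem_image_of_mem (fun g : Qb => ((g⁻¹ : Qb) : ℂ)) hg))
  constructor
  · refine ⟨hle, ?_⟩
    have hcp : ¬ (p : ℤ) ∣ c g := by
      intro hd
      have h1 : p ∣ (c g).natAbs := Int.natCast_dvd.mp hd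
      have h2 := Nat.le_of_dvd (Int.natAbs_pos.mpr (hc0 g)) h1
      have h3 : (c g).natAbs ≤ ∑ g ∈ S, (c g).natAbs :=
        Finset.single_le_sum (f := fun g => (c g).natAbs) (fun _ _ => Nat.zero_le _) hg
      omega
    set fb : (ZMod p)[X] := (f g).map (Int.castRingHom (ZMod p)) with hfb
    have hcb : ((c g : ℤ) : ZMod p) ≠ 0 := by
      intro h
      exact hcp ((ZMod.intCast_zmod_eq_zero_iff_dvd _ _).mp h)
    have hsep : fb.Separable := by
      have h1 := congrArg (Polynomial.map (Int.castRingHom (ZMod p))) (huv g)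
      rw [Polynomial.map_add, Polynomial.map_mul, Polynomial.map_mul, ← derivative_map, map_C,
        ← hfb, eq_intCast] at h1
      refine ⟨C ((c g : ZMod p)⁻¹) * (u g).map (Int.castRingHom (ZMod p)),
        C ((c g : ZMod p)⁻¹) * (v g).map (Int.castRingHom (ZMod p)), ?_⟩
      rw [mul_assoc, mul_assoc, ← mul_add, h1, ← C_mul, inv_mul_cancel₀ hcb, C_1]
    obtain ⟨F, hF, hb, hhb⟩ := dvdFrob hp fb hsep
    refine ⟨F, hF, ?_⟩
    obtain ⟨h, hh⟩ := map_surjective (Int.castRingHom (ZMod p)) (ZMod.ringHom_surjective _) hb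
    have hdiff : (C (p : ℤ)) ∣ (X ^ (p ^ F) - X - f g * h) := by
      rw [C_dvd_iff_dvd_coeff]
      intro k
      have h9 : (X ^ (p ^ F) - X - f g * h : ℤ[X]).map (Int.castRingHom (ZMod p)) = 0 := by
        rw [Polynomial.map_sub, Polynomial.map_sub, Polynomial.map_mul, Polynomial.map_pow,
          map_X, hh, ← hfb, hhb, sub_self]
      have h10 : ((X ^ (p ^ F) - X - f g * h : ℤ[X]).map (Int.castRingHom (ZMod p))).coeff k
          = 0 := by
        rw [h9]; simp
      rw [coeff_map, eq_intCast] at h10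
      exact (ZMod.intCast_zmod_eq_zero_iff_dvd _ _).mp h10
    obtain ⟨k, hk⟩ := hdiff
    have hgι : aeval (ι g) (f g) = 0 := by
      have h5 : aeval (ι g) (f g) = ι (aeval g (f g)) := by
        rw [aeval_def, aeval_def, Polynomial.hom_eval₂]
        congr 1
        exact RingHom.ext_int _ _
      rw [h5, hfg, map_zero]
    have heval : (ι g) ^ (p ^ F) - ι g = (p : K) * aeval (ι g) k := by
      have h11 := congrArg (aeval (ι g)) hk
      rw [map_sub, map_sub, map_mul, map_mul, map_pow, aeval_X, hgι, zero_mul, sub_zero,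
        aeval_C] at h11
      rw [h11]
      simp
    rw [heval, norm_mul, norm_p hp hE]
    have h12 := norm_aeval_le hp hE k (ι g) hle
    calc (p : ℝ)⁻¹ * ‖aeval (ι g) k‖ ≤ (p : ℝ)⁻¹ * 1 :=
          mul_le_mul_of_nonneg_left h12 (by positivity)
      _ = (p : ℝ)⁻¹ := mul_one _
  · intro hg0
    have hι : ι g ≠ 0 := (map_ne_zero ι).mpr hg0
    rw [map_inv₀, norm_inv] at hle'
    have h1 : 0 < ‖ι g‖ := norm_pos_iff.mpr hι
    have h2 : 1 ≤ ‖ι g‖ := by
      by_contra hcon
      push Not at hcon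
      have h3 : 1 < ‖ι g‖⁻¹ := (one_lt_inv₀ h1).mpr hcon
      linarith
    exact le_antisymm hle h2

end

end Pool.Agent.ZP3.H56
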