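import Pool.Agent.ZP3.Stmts

/-!
Squad ZP3, rows URT and URA.
-/

set_option autoImplicit false

namespace Pool.Agent.ZP3.H56

open Polynomial Pool.Agent.ZPT Pool.Agent.ZP3

noncomputable section

/-- powers of elements close to 1 -/
theorem pow_sub_one_le {K : Type} [NormedField K] [IsUltrametricDist K] (y : K) (hy : ‖y‖ ≤ 1)
    (c : ℝ) (h : ‖y - 1‖ ≤ c) (k : ℕ) : ‖y ^ k - 1‖ ≤ c := by
  rw [← geom_sum_mul, norm_mul]
  have h1 : ‖∑ i ∈ Finset.range k, y ^ i‖ ≤ 1 := by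
    refine IsUltrametricDist.norm_sum_le_of_forall_le_of_nonneg zero_le_one fun i _ => ?_
    rw [norm_pow]
    exact pow_le_one₀ (norm_nonneg y) hy
  calc ‖∑ i ∈ Finset.range k, y ^ i‖ * ‖y - 1‖ ≤ 1 * ‖y - 1‖ :=
        mul_le_mul_of_nonneg_right h1 (norm_nonneg _)
    _ ≤ c := by rw [one_mul]; exact h

theorem urt : URTStmt := by
  intro p hp K _ _ _ hE
  constructor
  · rintro x ⟨M, hM, hpM, hx⟩
    have hn : ‖x‖ = 1 := by
      have h1 : ‖x‖ ^ M = 1 := by rw [← norm_pow, hx, norm_one]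
      exact (pow_eq_one_iff_of_nonneg (norm_nonneg x) (by omega)).mp h1
    have hcop : Nat.Coprime p M := (Nat.Prime.coprime_iff_not_dvd hp).mpr hpM
    refine ⟨⟨hn.le, M.totient, Nat.totient_pos.mpr (by omega), ?_⟩, hn⟩
    have h2 : M ∣ p ^ M.totient - 1 :=
      (Nat.modEq_iff_dvd' (Nat.one_le_pow _ _ hp.pos)).mp (Nat.ModEq.pow_totient hcop).symm
    obtain ⟨k, hk⟩ := h2
    have h3 : p ^ M.totient = (p ^ M.totient - 1) + 1 :=
      (Nat.sub_add_cancel (Nat.one_le_pow _ _ hp.pos)).symm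
    have h4 : x ^ (p ^ M.totient) = x := by
      rw [h3, hk, pow_succ, pow_mul, hx, one_pow, one_mul]
    rw [h4, sub_self, norm_zero]
    positivity
  · rintro x n hn hpn hx ⟨_, F, hF, hB⟩
    refine ⟨⟨hx.le, ?_⟩, hx⟩
    set q := p ^ F with hq
    have hq2 : 2 ≤ q := by
      calc 2 ≤ p := hp.two_le
        _ = p ^ 1 := (pow_one p).symm
        _ ≤ p ^ F := Nat.pow_le_pow_right hp.pos hF
    have hcop : Nat.Coprime q (n * (q - 1)) := by
      apply Nat.Coprime.mul_right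
      · exact Nat.Coprime.pow_left _ ((Nat.Prime.coprime_iff_not_dvd hp).mpr hpn)
      · have : Nat.Coprime (q - 1 + 1) (q - 1) := by
          rw [Nat.coprime_self_add_left]; exact Nat.coprime_one_left _
        rwa [Nat.sub_add_cancel (by omega)] at this
    have hmpos : 0 < n * (q - 1) := Nat.mul_pos (by omega) (by omega)
    set j := (n * (q - 1)).totient with hj
    have hjpos : 1 ≤ j := Nat.totient_pos.mpr hmpos
    have h2 : n * (q - 1) ∣ q ^ j - 1 :=
      (Nat.modEq_iff_dvd' (Nat.one_le_pow _ _ (by omega))).mp (Nat.ModEq.pow_totient hcop).symm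
    obtain ⟨k, hk⟩ := h2
    have h3 : q ^ j = (q ^ j - 1) + 1 :=
      (Nat.sub_add_cancel (Nat.one_le_pow _ _ (by omega))).symm
    -- B ^ (q - 1) is close to one
    have hBn : ‖x ^ n‖ = 1 := by rw [norm_pow, hx, one_pow]
    have h5 : ‖(x ^ n) ^ (q - 1) - 1‖ ≤ (p : ℝ)⁻¹ := by
      have h6 : (x ^ n) ^ q - x ^ n = x ^ n * ((x ^ n) ^ (q - 1) - 1) := by
        rw [mul_sub, mul_one, ← pow_succ', Nat.sub_add_cancel (by omega)]
      rw [h6, norm_mul, hBn, one_mul] at hB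
      exact hB
    refine ⟨F * j, Nat.mul_pos (by omega) (by omega), ?_⟩
    have h7 : x ^ (p ^ (F * j)) - x = x * (((x ^ n) ^ (q - 1)) ^ k - 1) := by
      rw [mul_sub, mul_one, ← pow_mul x n, ← pow_mul x (n * (q - 1)), ← hk, ← pow_succ',
        Nat.sub_add_cancel (Nat.one_le_pow _ _ (by omega)), pow_mul p F j]
    rw [h7, norm_mul, hx, one_mul]
    apply pow_sub_one_le _ _ _ h5
    rw [norm_pow, hBn, one_pow]

end

end Pool.Agent.ZP3.H56
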